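import Pool.Agent.Helper75.PX.Stmts4

/-! Row B2c of the sheet `Pool.Agent.Helper75.PX.Stmts4`. -/

set_option autoImplicit false

universe u

open Module TensorProduct

namespace Pool.Agent.Helper75.PX

theorem st_B2c : ST_B2c.{u} := by
  intro K A _ _ _ _ i j a b h2 h
  have hj := h.hj
  rw [Algebra.algebraMap_eq_smul_one] at hj
  have hji := h.hji
  have hdb : ∀ x : A, x + x = 0 := by
    intro x
    rw [← two_smul K x, h2, zero_smul]
  have aux : ∀ x y : K, x • (1 : A) + y • i = 0 → x = 0 ∧ y = 0 := by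
    intro x y hxy
    have e1 : j * (x • (1 : A) + y • i) * j = b • ((x • (1 : A) + y • i) + y • (1 : A)) := by
      rw [mul_add, add_mul, mul_smul_comm, mul_smul_comm, smul_mul_assoc, smul_mul_assoc, mul_one,
        hj, hji, mul_assoc, hj, mul_smul_comm, mul_one]
      module
    rw [hxy, mul_zero, zero_mul, zero_add] at e1
    have e2 : y • (1 : A) = 0 := (smul_eq_zero.1 e1.symm).resolve_left h.b0
    have hy : y = 0 := (smul_eq_zero.1 e2).resolve_right one_ne_zero
    rw [hy, zero_smul, add_zero] at hxy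
    exact ⟨(smul_eq_zero.1 hxy).resolve_right one_ne_zero, hy⟩
  have hcm : ∀ x y : K, i * (x • (1 : A) + y • i) = (x • (1 : A) + y • i) * i := by
    intro x y
    rw [mul_add, add_mul, mul_smul_comm, mul_smul_comm, smul_mul_assoc, smul_mul_assoc, mul_one,
      one_mul]
  rw [Fintype.linearIndependent_iff]
  intro g hg
  have hg' : (g (0, 0) • (1 : A) + g (1, 0) • i) + (g (0, 1) • (1 : A) + g (1, 1) • i) * j = 0 := by
    rw [← hg, Fintype.sum_prod_type]
    simp only [Fin.sum_univ_two, e2q, Fin.val_zero, Fin.val_one, pow_zero, pow_one, one_mul,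
      mul_one]
    rw [add_mul, smul_mul_assoc, smul_mul_assoc, one_mul]
    abel
  set P : A := g (0, 0) • (1 : A) + g (1, 0) • i with hP
  set Q : A := g (0, 1) • (1 : A) + g (1, 1) • i with hQ
  have c1 : i * P = P * i := hcm _ _
  have c2 : i * Q = Q * i := hcm _ _
  have e3 : i * (P + Q * j) + (P + Q * j) * i = Q * j := by
    have s1 : i * (P + Q * j) = P * i + Q * i * j := by
      rw [mul_add, c1, ← mul_assoc, c2]
    have s2 : (P + Q * j) * i = P * i + (Q * i * j + Q * j) := by
      have t1 : (P + Q * j) * i = P * i + Q * (j * i) := by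
        rw [add_mul P (Q * j) i, mul_assoc Q j i]
      have t2 : j * i = i * j + j := by
        rw [hji, add_mul i 1 j, one_mul]
      rw [t1, t2, mul_add Q (i * j) j, ← mul_assoc Q i j]
    have e4 : i * (P + Q * j) + (P + Q * j) * i =
        (P * i + P * i) + (Q * i * j + Q * i * j) + Q * j := by
      rw [s1, s2]
      abel
    rw [e4, hdb, hdb, zero_add, zero_add]
  rw [hg', mul_zero, zero_mul, zero_add] at e3
  have q1 : b • Q = 0 := by
    have : Q * j * j = 0 := by rw [← e3, zero_mul]
    rwa [mul_assoc, hj, mul_smul_comm, mul_one] at this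
  have q2 : Q = 0 := (smul_eq_zero.1 q1).resolve_left h.b0
  obtain ⟨a3, a4⟩ := aux _ _ q2
  rw [q2, zero_mul, add_zero] at hg'
  obtain ⟨a1, a2⟩ := aux _ _ hg'
  rintro ⟨s, t⟩
  fin_cases s <;> fin_cases t
  · exact a1
  · exact a3
  · exact a2
  · exact a4

end Pool.Agent.Helper75.PX
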