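import Pool.Agent.Helper75.PX.Stmts

set_option autoImplicit false

universe u

open Module TensorProduct Polynomial

namespace Pool.Agent.Helper75.PX

theorem st_MDV : ST_MDV.{u} := by
  intro K D _ _ _ _ x
  have hx : IsIntegral K x := Algebra.IsIntegral.isIntegral x
  have hirr : Irreducible (minpoly K x) := minpoly.irreducible hx
  haveI : Fact (Irreducible (minpoly K x)) := ⟨hirr⟩
  let f : AdjoinRoot (minpoly K x) →ₐ[K] D :=
    Ideal.Quotient.liftₐ (Ideal.span {minpoly K x}) (Polynomial.aeval x) (fun a ha => by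
      rw [Ideal.mem_span_singleton] at ha
      obtain ⟨c, rfl⟩ := ha
      rw [map_mul, minpoly.aeval, zero_mul])
  letI : Module (AdjoinRoot (minpoly K x)) D := Module.compHom D (f : AdjoinRoot (minpoly K x) →+* D)
  haveI : IsScalarTower K (AdjoinRoot (minpoly K x)) D := by
    refine ⟨fun a b c => ?_⟩
    change f (a • b) * c = a • (f b * c)
    rw [map_smul, smul_mul_assoc]
  have h1 : finrank K (AdjoinRoot (minpoly K x)) = (minpoly K x).natDegree := by
    rw [(AdjoinRoot.powerBasis hirr.ne_zero).finrank, AdjoinRoot.powerBasis_dim]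
  have h2 := Module.finrank_mul_finrank K (AdjoinRoot (minpoly K x)) D
  rw [h1] at h2
  exact ⟨_, h2.symm⟩

end Pool.Agent.Helper75.PX
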