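import Pool.Agent.Helper75.PX.Stmts6

/-! Row RELb of the sheet `Pool.Agent.Helper75.PX.Stmts6`. -/

set_option autoImplicit false

universe u

namespace Pool.Agent.Helper75.PX

section
variable {K A : Type*} [Field K] [Ring A] [Algebra K A]

theorem relb_mul {α β : A} {a b : K} (haa : α * α = α + algebraMap K A a)
    (hbb : β * β = β + algebraMap K A b) (hab : α * β = β * α) (u v : Fin 4 → K) :
    uE α β u * uE α β v = uE α β
      ![u 0 * v 0 + a * (u 1 * v 1) + b * (u 2 * v 2) + a * b * (u 3 * v 3),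
        u 0 * v 1 + u 1 * v 0 + u 1 * v 1 + b * (u 2 * v 3 + u 3 * v 2) + b * (u 3 * v 3),
        u 0 * v 2 + u 2 * v 0 + u 2 * v 2 + a * (u 1 * v 3 + u 3 * v 1) + a * (u 3 * v 3),
        u 0 * v 3 + u 3 * v 0 + u 1 * v 2 + u 2 * v 1 + (u 1 * v 3 + u 3 * v 1) +
          (u 2 * v 3 + u 3 * v 2) + u 3 * v 3] := by
  have h1 : α * α = α + a • (1 : A) := by rw [haa, Algebra.algebraMap_eq_smul_one]
  have h2 : β * β = β + b • (1 : A) := by rw [hbb, Algebra.algebraMap_eq_smul_one]
  have h3 : β * α = α * β := hab.symm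
  have h4 : α * (α * β) = α * β + a • β := by rw [← mul_assoc, h1, add_mul, smul_one_mul]
  have h5 : α * β * α = α * β + a • β := by rw [mul_assoc, h3, h4]
  have h6 : α * β * β = α * β + b • α := by
    rw [mul_assoc, h2, mul_add, mul_smul_comm, mul_one]
  have h7 : β * (α * β) = α * β + b • α := by rw [← mul_assoc, h3, h6]
  have h8 : α * β * (α * β) = α * β + b • α + a • β + (a * b) • (1 : A) := by
    rw [← mul_assoc, h5, add_mul, smul_mul_assoc, h2, h6, smul_add, smul_smul]
    abel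
  simp only [uE, mul_add, add_mul, smul_mul_assoc, mul_smul_comm, one_mul, mul_one, h1, h2, h3, h4,
    h5, h6, h7, h8]
  simp only [Matrix.cons_val_zero, Matrix.cons_val_one, Matrix.cons_val]
  module

theorem relb_z {α β z : A} (hza : z * α = (α + 1) * z) (hzb : z * β = β * z) (v : Fin 4 → K) :
    z * uE α β v = uE α β ![v 0 + v 1, v 1, v 2 + v 3, v 3] * z := by
  have h0 : z * α = α * z + z := by rw [hza, add_mul, one_mul]
  have h1 : z * (α * β) = α * β * z + β * z := by
    rw [← mul_assoc, h0, add_mul, mul_assoc, hzb, ← mul_assoc]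
  simp only [uE, mul_add, add_mul, smul_mul_assoc, mul_smul_comm, one_mul, mul_one, h0, hzb, h1]
  simp only [Matrix.cons_val_zero, Matrix.cons_val_one, Matrix.cons_val]
  module

theorem relb_w {α β w : A} (hwa : w * α = α * w) (hwb : w * β = (β + 1) * w) (v : Fin 4 → K) :
    w * uE α β v = uE α β ![v 0 + v 2, v 1 + v 3, v 2, v 3] * w := by
  have h0 : w * β = β * w + w := by rw [hwb, add_mul, one_mul]
  have h1 : w * (α * β) = α * β * w + α * w := by
    rw [← mul_assoc, hwa, mul_assoc, h0, mul_add, ← mul_assoc]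
  simp only [uE, mul_add, add_mul, smul_mul_assoc, mul_smul_comm, one_mul, mul_one, hwa, h0, h1]
  simp only [Matrix.cons_val_zero, Matrix.cons_val_one, Matrix.cons_val]
  module

theorem relb_cancel {α w : A} {a r : K} (haa : α * α = α + algebraMap K A a)
    (hww : w * w = r • α) (a0 : a ≠ 0) (r0 : r ≠ 0) {x y : A} (h : x * w = y * w) : x = y := by
  have h1 : w * w * (α - 1) = (r * a) • (1 : A) := by
    rw [hww, smul_mul_assoc, mul_sub, mul_one, haa, add_sub_cancel_left,
      Algebra.algebraMap_eq_smul_one, smul_smul]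
  have h2 : x * (w * w * (α - 1)) = y * (w * w * (α - 1)) := by
    rw [← mul_assoc, ← mul_assoc, h, ← mul_assoc, ← mul_assoc]
  rw [h1, mul_smul_comm, mul_smul_comm, mul_one, mul_one] at h2
  have h3 : (r * a) ≠ 0 := mul_ne_zero r0 a0
  have h4 := congrArg (fun t => (r * a)⁻¹ • t) h2
  simpa only [smul_smul, inv_mul_cancel₀ h3, one_smul] using h4

theorem relb_sub (α β : A) (u v : Fin 4 → K) :
    uE α β u - uE α β v = uE α β (u - v) := by
  simp only [uE, Pi.sub_apply]
  module

end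

theorem st_RELb (h1 : ST_I4b.{u}) : ST_RELb.{u} := by
  intro K A _ _ _ _ α β z w a b p r v h2 hD
  have hI := h1 K A α β z w a b p r v h2 hD
  obtain ⟨haa, hbb, hab, hza, hzb, hwa, hwb, hzz, hww, hzw, a0, b0, p0, r0⟩ := hD
  have hpb : p • β = uE α β ![0, 0, p, 0] := by
    simp only [uE, Matrix.cons_val_zero, Matrix.cons_val_one, Matrix.cons_val]
    module
  have hra : r • α = uE α β ![0, r, 0, 0] := by
    simp only [uE, Matrix.cons_val_zero, Matrix.cons_val_one, Matrix.cons_val]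
    module
  have key1 : uE α β ![0, 0, p, 0] =
      uE α β ![v 0 + v 1, v 1, v 2 + v 3, v 3] * uE α β v * uE α β ![p, 0, p, 0] := by
    refine relb_cancel haa hww a0 r0 ?_
    calc uE α β ![0, 0, p, 0] * w = z * z * w := by rw [hzz, hpb]
      _ = z * (uE α β v * (w * z)) := by rw [mul_assoc, hzw]
      _ = uE α β ![v 0 + v 1, v 1, v 2 + v 3, v 3] * (z * w) * z := by
        rw [← mul_assoc, relb_z hza hzb]; simp only [mul_assoc]
      _ = uE α β ![v 0 + v 1, v 1, v 2 + v 3, v 3] * (uE α β v * (w * (z * z))) := by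
        rw [hzw]; simp only [mul_assoc]
      _ = _ := by
        rw [hzz, hpb, relb_w hwa hwb]
        simp only [Matrix.cons_val_zero, Matrix.cons_val_one, Matrix.cons_val, mul_assoc, zero_add,
          add_zero]
  have key2 : uE α β ![r, r, 0, 0] =
      uE α β v * uE α β ![v 0 + v 2, v 1 + v 3, v 2, v 3] * uE α β ![0, r, 0, 0] := by
    refine relb_cancel hbb hzz b0 p0 ?_
    calc uE α β ![r, r, 0, 0] * z = z * (w * w) := by
          rw [hww, hra, relb_z hza hzb]
          simp only [Matrix.cons_val_zero, Matrix.cons_val_one, Matrix.cons_val, zero_add, add_zero]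
      _ = uE α β v * (w * (z * w)) := by rw [← mul_assoc]; nth_rewrite 1 [hzw]; simp only [mul_assoc]
      _ = uE α β v * (uE α β ![v 0 + v 2, v 1 + v 3, v 2, v 3] * (w * w) * z) := by
        rw [hzw, ← mul_assoc w, relb_w hwa hwb]; simp only [mul_assoc]
      _ = _ := by
        rw [hww, hra]
        simp only [mul_assoc]
  rw [relb_mul haa hbb hab, relb_mul haa hbb hab, ← sub_eq_zero, relb_sub] at key1 key2
  have k1 := hI _ key1
  have k2 := hI _ key2
  have e1 := congrFun k1 0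
  have e2 := congrFun k1 2
  have e3 := congrFun k2 0
  have e4 := congrFun k2 1
  simp only [Pi.sub_apply, Pi.zero_apply, Matrix.cons_val_zero, Matrix.cons_val_one,
    Matrix.cons_val, mul_zero, add_zero, zero_add] at e1 e2 e3 e4
  have g1 : p * ((v 0 ^ 2 + v 0 * v 1 + a * v 1 ^ 2 + b * (v 2 ^ 2 + v 2 * v 3 + a * v 3 ^ 2)) +
      b * ((v 2 ^ 2 + v 2 * v 3 + a * v 3 ^ 2) + (v 0 * v 3 + v 1 * v 2))) = p * 0 := by
    linear_combination (-1) * e1 - p * b * (v 0 * v 2 + a * v 1 * v 3) * h2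
  have g2 : p * (v 0 ^ 2 + v 0 * v 1 + a * v 1 ^ 2 + b * (v 2 ^ 2 + v 2 * v 3 + a * v 3 ^ 2)) =
      p * 1 := by
    linear_combination (-1) * e2 - p * ((v 2 ^ 2 + v 2 * v 3 + a * v 3 ^ 2) +
      (v 0 * v 3 + v 1 * v 2) + 2 * (v 0 * v 2 + a * v 1 * v 3)) * h2
  have g3 : r * (((v 1 ^ 2 + v 1 * v 3 + b * v 3 ^ 2) + (v 0 * v 3 + v 1 * v 2)) * a) = r * 1 := by
    linear_combination (-1) * e3 - a * r * (v 0 * v 1 + b * v 2 * v 3) * h2
  have g4 : r * ((v 0 ^ 2 + v 0 * v 2 + b * v 2 ^ 2 + a * (v 1 ^ 2 + v 1 * v 3 + b * v 3 ^ 2)) +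
      ((v 1 ^ 2 + v 1 * v 3 + b * v 3 ^ 2) + (v 0 * v 3 + v 1 * v 2))) = r * 1 := by
    linear_combination (-1) * e4 - r * (v 0 * v 1 + b * v 2 * v 3) * h2
  have f1 := mul_left_cancel₀ p0 g1
  have f2 := mul_left_cancel₀ p0 g2
  have f3 := eq_inv_of_mul_eq_one_left (mul_left_cancel₀ r0 g3)
  have f4 := mul_left_cancel₀ r0 g4
  refine ⟨f2, eq_inv_of_mul_eq_one_left ?_, ?_, f3⟩
  · linear_combination f1 - f2 - h2
  · linear_combination f4 - f3 - a⁻¹ * h2

end Pool.Agent.Helper75.PX
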